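import Pool.Agent.H94.PG.H91.GoldMertens3_3
import Pool.Agent.H94.PG.H91.PK.MB_1

/-!
# IS MtA: Mertens' theorem with a limit

`fS n = ∑_{p ≤ n} -log(1 - 1/p)`.
`mertA`: fS n - loglog n converges.  Proof: for 65536 ≤ w ≤ z, `Pool.Agent.H91.Gold.mertens_wz` and
`Pool.Agent.H91.PK.mertens_lower` give |∑_{w<p≤z} 1/p - log(log z/log w)| ≤ 0.25/log w, and
∑_{p>w} (-log(1-1/p) - 1/p) ≤ ∑_{p > w} 1/p² ≤ 2/w;  so the sequence fS n - loglog n is Cauchy.
`mertA_bd`: |fS n - loglog n| ≤ C for n ≥ 2 (a convergent sequence; finitely many small n).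
-/

set_option autoImplicit false

namespace Pool.Agent.H36.IS

open Finset Filter

private theorem MtA_diff {w z : ℕ} (hw : 65536 ≤ w) (hwz : w ≤ z) :
    |(fS z - Real.log (Real.log z)) - (fS w - Real.log (Real.log w))| ≤
      0.25 / Real.log w + 2 / (w : ℝ) := by
  have hw0 : (65536 : ℝ) ≤ w := by exact_mod_cast hw
  have hwz' : (w : ℝ) ≤ z := by exact_mod_cast hwz
  have hlw : 0 < Real.log w := Real.log_pos (by linarith)
  have hlz : 0 < Real.log z := Real.log_pos (by linarith)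
  have h1 := H91.Gold.mertens_wz hw hwz
  have h2 := H91.PK.mertens_lower hw hwz
  rw [Real.log_div hlz.ne' hlw.ne'] at h1 h2
  have h3 : 0.2295 / Real.log w ≤ 0.25 / Real.log w :=
    div_le_div_of_nonneg_right (by norm_num) hlw.le
  have hp : ∀ p ∈ H91.Gold.Pr w z, (0 : ℝ) ≤ 1 / (p : ℝ) ∧ 1 / (p : ℝ) ≤ 1 / 2 := by
    intro p hp
    have := (H91.Gold.prime_of_Pr hp).two_le
    have hp2 : (2 : ℝ) ≤ p := by exact_mod_cast this
    refine ⟨by positivity, ?_⟩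
    exact one_div_le_one_div_of_le (by norm_num) hp2
  have h4 : ∑ p ∈ H91.Gold.Pr w z, (1 : ℝ) / p ≤
      ∑ p ∈ H91.Gold.Pr w z, -Real.log (1 - 1 / (p : ℝ)) :=
    sum_le_sum fun p h => (MtA_log (hp p h).1 (hp p h).2).1
  have h5 : ∑ p ∈ H91.Gold.Pr w z, -Real.log (1 - 1 / (p : ℝ)) ≤
      ∑ p ∈ H91.Gold.Pr w z, (1 : ℝ) / p + 2 / (w : ℝ) := by
    calc ∑ p ∈ H91.Gold.Pr w z, -Real.log (1 - 1 / (p : ℝ))
        ≤ ∑ p ∈ H91.Gold.Pr w z, ((1 : ℝ) / p + 2 * (1 / (p : ℝ)) ^ 2) :=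
          sum_le_sum fun p h => (MtA_log (hp p h).1 (hp p h).2).2
      _ = ∑ p ∈ H91.Gold.Pr w z, (1 : ℝ) / p + 2 * ∑ p ∈ H91.Gold.Pr w z, 1 / (p : ℝ) ^ 2 := by
          rw [sum_add_distrib, ← mul_sum]
          congr 2
          refine sum_congr rfl fun p _ => ?_
          rw [div_pow, one_pow]
      _ ≤ _ := by
          have h6 : ∑ p ∈ H91.Gold.Pr w z, 1 / (p : ℝ) ^ 2 ≤ ∑ p ∈ Ioc w z, 1 / (p : ℝ) ^ 2 := by
            refine sum_le_sum_of_subset_of_nonneg ?_ fun p _ _ => by positivity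
            intro p hp'
            exact mem_Ioc.mpr (H91.Gold.mem_Pr.1 hp').1
          have h7 := MtA_sq (by omega : 1 ≤ w) hwz
          have h8 : (0 : ℝ) ≤ 1 / (z : ℝ) := by positivity
          have h9 : 2 / (w : ℝ) = 2 * (1 / (w : ℝ)) := by ring
          rw [h9]
          linarith
  rw [MtA_split hwz, abs_le]
  have h10 : (0 : ℝ) ≤ 2 / (w : ℝ) := by positivity
  constructor <;> linarith

theorem mertA : ∃ c : ℝ, Tendsto (fun n : ℕ => fS n - Real.log (Real.log n)) atTop (nhds c) := by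
  refine cauchySeq_tendsto_of_complete ?_
  rw [Metric.cauchySeq_iff']
  intro ε hε
  have hlim : Tendsto (fun w : ℕ => 0.25 / Real.log w + 2 / (w : ℝ)) atTop (nhds 0) := by
    have h1 : Tendsto (fun w : ℕ => 0.25 / Real.log w) atTop (nhds 0) :=
      tendsto_const_nhds.div_atTop (Real.tendsto_log_atTop.comp tendsto_natCast_atTop_atTop)
    have h2 : Tendsto (fun w : ℕ => 2 / (w : ℝ)) atTop (nhds 0) :=
      tendsto_const_div_atTop_nhds_zero_nat 2
    simpa using h1.add h2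
  obtain ⟨N, hN⟩ := ((hlim.eventually (gt_mem_nhds hε)).and (eventually_ge_atTop 65536)).exists
  refine ⟨N, fun n hn => ?_⟩
  rw [Real.dist_eq]
  exact lt_of_le_of_lt (MtA_diff hN.2 hn) hN.1

end Pool.Agent.H36.IS
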